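import Pool.Agent.H261ET.Cor

/-!
# MP_d5a1e1_nt: bounded random perturbations of arbitrary sets

Move every element of an arbitrary infinite set `A = {a_0 < a_1 < ...}` to the right by independent random
amounts `ε_i ∈ {0, ..., w}` (for instance by `0` or `1`, according to a fair coin). Nothing is assumed about `A`.
Let `h ≥ 2` and let `r` be the unordered representation function of order `h` of the new set `A'`. There is
`c > 0`, which does not depend on `A`, such that almost surely:

1. for all large `x`, if `r (m) ≤ R` for all `m ≤ x`, where `R ≤ c log x`, then at least `c ^ (R + 1) x` of the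
   integers up to `x` are not sums of `h` elements of `A'`;
2. if `A'` is an asymptotic basis of order `h`, then `max_{m ≤ x} r (m) ≥ c log x` for all large `x`;
3. if `r ≤ R`, then the set of the integers that are not sums of `h` elements of `A'` has lower density at least
   `c ^ (R + 1)`;
4. if the representation function of `A` is `o (log n)`, for instance bounded, then `A'` is not an asymptotic basis
   of order `h` (bounded shifts change the representation function at most by a constant factor, essentially). So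
   the random shifts destroy, with probability one, the basis property of every counterexample to the conjecture.

Proof. If `r ≤ R` up to `x` then (deterministically) `A` has at most `K R` index tuples of length `h` with sum in
`[n - h w, n]`, for all `n` below `x`; let `I n` be the set of the indices that occur. With a probability of at
least `δ ^ |I n|` all the `a_i + ε_i`, `i ∈ I n`, are divisible by `q`, and then `n` is not represented if `q ∤ n`.
These events are independent for disjoint `I n`, `I n'`; since the counting function of `A` at `2 x` is at most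
about `(x R) ^ (1 / h)`, few pairs `I n`, `I n'` meet, and the second moment gives the claim in a dyadic interval
outside an event of probability `O (x ^ (-1 / (2 h)))`.
-/

set_option autoImplicit false

open Filter Topology MeasureTheory ProbabilityTheory

namespace Pool.Agent.Results.MP_d5a1e1_nt.BoundedPerturbations

/-- the representations of `n` as a sum of `h` elements of `A`, the order of the summands being disregarded -/
def reps (A : Set ℕ) (h n : ℕ) : Set (Multiset ℕ) :=
  {s | Multiset.card s = h ∧ (∀ x ∈ s, x ∈ A) ∧ s.sum = n}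

/-- the unordered representation function `r_{A,h}(n)` -/
noncomputable def r (A : Set ℕ) (h n : ℕ) : ℕ := (reps A h n).ncard

/-- `A` is an asymptotic basis of order `h` -/
def IsBasis (A : Set ℕ) (h : ℕ) : Prop := ∃ N : ℕ, ∀ n, N ≤ n → (reps A h n).Nonempty

/-- the number of the integers `n ≤ x` that are not sums of `h` elements of `A` -/
noncomputable def missing (A : Set ℕ) (h x : ℕ) : ℕ := {n | n ≤ x ∧ reps A h n = ∅}.ncard

/-- the properties of a perturbation `B` of a set `A`, with the constant `c` -/
structure Holds (c : ℝ) (h : ℕ) (A B : Set ℕ) : Prop where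
  /-- small representation functions leave many integers without representation -/
  tradeoff : ∀ᶠ x : ℕ in atTop, ∀ R : ℕ, (R : ℝ) ≤ c * Real.log x → (∀ m ≤ x, r B h m ≤ R) →
    c ^ (R + 1) * x ≤ missing B h x
  /-- if `B` is a basis then `max_{m ≤ x} r (m) ≥ c log x` for all large `x` -/
  basis : IsBasis B h → ∀ᶠ x : ℕ in atTop, ∃ m ≤ x, c * Real.log x ≤ r B h m
  /-- if the representation function is bounded then a positive proportion of the integers is missing -/
  bounded : ∀ R : ℕ, (∀ n, r B h n ≤ R) → ∀ᶠ x : ℕ in atTop, c ^ (R + 1) * x ≤ missing B h x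
  /-- if the representation function of the original set is `o (log n)` then `B` is not a basis -/
  destroyed : Tendsto (fun n : ℕ => (r A h n : ℝ) / Real.log n) atTop (𝓝 0) → ¬ IsBasis B h

theorem basis_of (c : ℝ) (hc : 0 < c) (hc1 : c < 1) (A : Set ℕ) (h : ℕ)
    (H : ∀ᶠ x : ℕ in atTop, ∀ R : ℕ, (R : ℝ) ≤ c * Real.log x → (∀ m ≤ x, r A h m ≤ R) →
      c ^ (R + 1) * x ≤ missing A h x) (hbas : IsBasis A h) :
    ∀ᶠ x : ℕ in atTop, ∃ m ≤ x, c * Real.log x ≤ r A h m := by
  · obtain ⟨N, hN⟩ := hbas
    have hκ : 0 < 1 + c * Real.log c := by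
      have h1 := Real.abs_log_mul_self_lt c hc hc1.le
      have h2 := (abs_lt.1 h1).1
      linarith
    have hbig : ∀ᶠ x : ℕ in atTop, (N : ℝ) < c * (x : ℝ) ^ (1 + c * Real.log c) :=
      tendsto_natCast_atTop_atTop.eventually
        (((tendsto_rpow_atTop hκ).const_mul_atTop hc).eventually_gt_atTop (N : ℝ))
    filter_upwards [H, hbig, eventually_ge_atTop 1] with x hx hxN hx1
    by_contra hcon
    push Not at hcon
    have hlog0 : 0 ≤ c * Real.log x := mul_nonneg hc.le (Real.log_natCast_nonneg x)
    have h1 := hx ⌊c * Real.log x⌋₊ (Nat.floor_le hlog0) fun m hm => Nat.le_floor (hcon m hm).le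
    have h2 : missing A h x ≤ N := by
      have h3 : {n | n ≤ x ∧ reps A h n = ∅} ⊆ ((Finset.range N : Finset ℕ) : Set ℕ) := by
        intro n hn
        rw [Finset.mem_coe, Finset.mem_range]
        by_contra hge
        have := hN n (not_lt.1 hge)
        rw [hn.2] at this
        exact Set.not_nonempty_empty this
      have h4 := Set.ncard_le_ncard h3 (Finset.finite_toSet _)
      rw [Set.ncard_coe_finset, Finset.card_range] at h4
      exact h4
    have hxr : (0 : ℝ) < x := by exact_mod_cast hx1
    have h5 : (x : ℝ) ^ (c * Real.log c) ≤ c ^ ⌊c * Real.log x⌋₊ := by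
      have e1 : c ^ ⌊c * Real.log x⌋₊ = Real.exp (⌊c * Real.log x⌋₊ * Real.log c) := by
        rw [Real.exp_nat_mul, Real.exp_log hc]
      rw [Real.rpow_def_of_pos hxr, e1]
      apply Real.exp_le_exp.2
      have h6 : (⌊c * Real.log x⌋₊ : ℝ) ≤ c * Real.log x := Nat.floor_le hlog0
      have h7 : Real.log c ≤ 0 := Real.log_nonpos hc.le hc1.le
      nlinarith
    have h8 : c * (x : ℝ) ^ (1 + c * Real.log c) ≤ c ^ (⌊c * Real.log x⌋₊ + 1) * x := by
      rw [Real.rpow_add hxr, Real.rpow_one]
      calc c * ((x : ℝ) * (x : ℝ) ^ (c * Real.log c)) ≤ c * ((x : ℝ) * c ^ ⌊c * Real.log x⌋₊) := by gcongr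
        _ = c ^ (⌊c * Real.log x⌋₊ + 1) * x := by ring
    have h9 : (missing A h x : ℝ) ≤ N := by exact_mod_cast h2
    linarith

theorem holds_of (c : ℝ) (hc : 0 < c) (hc1 : c < 1) (a z : ℕ → ℕ) (ha : StrictMono a) (h w : ℕ)
    (hz : ∀ i, z i ≤ w)
    (H : ∀ᶠ x : ℕ in atTop, ∀ R : ℕ, (R : ℝ) ≤ c * Real.log x →
      (∀ m ≤ x, r (Set.range fun i => a i + z i) h m ≤ R) →
      c ^ (R + 1) * x ≤ missing (Set.range fun i => a i + z i) h x) :
    Holds c h (Set.range a) (Set.range fun i => a i + z i) := by
  have hlog : Tendsto (fun x : ℕ => c * Real.log x) atTop atTop :=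
    (Real.tendsto_log_atTop.comp tendsto_natCast_atTop_atTop).const_mul_atTop hc
  refine ⟨H, basis_of c hc hc1 _ h H, fun R hR => ?_, fun ho hbas => ?_⟩
  · filter_upwards [H, hlog.eventually_ge_atTop (R : ℝ)] with x hx hxR
    exact hx R hxR fun m _ => hR m
  · exact Pool.Agent.H261ET.not_large a z ha h w hz c hc ho (basis_of c hc hc1 _ h H hbas)

/-- The product of the uniform probability measures on `{0, ..., w}`. -/
noncomputable def unif (w : ℕ) : Measure (ℕ → Fin (w + 1)) :=
  Measure.infinitePi fun _ : ℕ => (PMF.uniformOfFintype (Fin (w + 1))).toMeasure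

theorem result (h w : ℕ) (hh : 2 ≤ h) :
    -- independent shifts in `{0, ..., w}` with `P (q ∣ a i + ε i) ≥ δ`
    (∀ (q : ℕ) (δ : ℝ), 2 ≤ q → 0 < δ → ∃ c : ℝ, 0 < c ∧ c < 1 ∧ ∀ a : ℕ → ℕ, StrictMono a →
      ∀ (Ω : Type) [MeasurableSpace Ω] (μ : Measure Ω) [IsProbabilityMeasure μ] (ε : ℕ → Ω → ℕ),
      (∀ i, Measurable (ε i)) → iIndepFun ε μ → (∀ i ω, ε i ω ≤ w) →
      (∀ i, δ ≤ μ.real {ω | q ∣ a i + ε i ω}) →
      ∀ᵐ ω ∂μ, Holds c h (Set.range a) (Set.range fun i => a i + ε i ω)) ∧
    -- in particular independent shifts that are uniformly distributed in `{0, ..., w}`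
    (1 ≤ w → ∃ c : ℝ, 0 < c ∧ c < 1 ∧ ∀ a : ℕ → ℕ, StrictMono a →
      ∀ᵐ z ∂(unif w), Holds c h (Set.range a) (Set.range fun i => a i + (z i : ℕ))) := by
  have key : ∀ (q : ℕ) (δ : ℝ), 2 ≤ q → 0 < δ → ∃ c : ℝ, 0 < c ∧ c < 1 ∧ ∀ a : ℕ → ℕ, StrictMono a →
      ∀ (Ω : Type) [MeasurableSpace Ω] (μ : Measure Ω) [IsProbabilityMeasure μ] (ε : ℕ → Ω → ℕ),
      (∀ i, Measurable (ε i)) → iIndepFun ε μ → (∀ i ω, ε i ω ≤ w) →
      (∀ i, δ ≤ μ.real {ω | q ∣ a i + ε i ω}) →
      ∀ᵐ ω ∂μ, Holds c h (Set.range a) (Set.range fun i => a i + ε i ω) := by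
    intro q δ hq hδ
    obtain ⟨c, hc, hc1, H⟩ := Pool.Agent.H261ET.main_trade h w q (by omega) hq δ hδ
    refine ⟨c, hc, hc1, fun a ha Ω _ μ _ ε hmeas hind hw hδG => ?_⟩
    filter_upwards [H a ha Ω μ ε hmeas hind hw hδG] with ω hω
    exact holds_of c hc hc1 a (fun i => ε i ω) ha h w (fun i => hw i ω) hω
  refine ⟨key, fun hw1 => ?_⟩
  obtain ⟨c, hc, hc1, H⟩ := key 2 (1 / (w + 1)) le_rfl (by positivity)
  refine ⟨c, hc, hc1, fun a ha => ?_⟩
  have hprob : IsProbabilityMeasure (unif w) := by
    unfold unif
    infer_instance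
  refine H a ha _ (unif w) (fun i z => (z i : ℕ)) (fun i =>
    (measurable_from_top (f := fun x : Fin (w + 1) => (x : ℕ))).comp (measurable_pi_apply i)) ?_
    (fun i z => Nat.lt_succ_iff.1 (z i).2) fun i => ?_
  · exact iIndepFun_infinitePi (P := fun _ : ℕ => (PMF.uniformOfFintype (Fin (w + 1))).toMeasure)
      (X := fun _ (x : Fin (w + 1)) => (x : ℕ)) (fun _ => measurable_from_top)
  · -- one of the values `0`, `1` has the right parity
    obtain ⟨j, hj⟩ : ∃ j : Fin (w + 1), 2 ∣ a i + (j : ℕ) := by
      rcases Nat.even_or_odd (a i) with he | ho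
      · exact ⟨⟨0, by omega⟩, by simpa using he.two_dvd⟩
      · refine ⟨⟨1, by omega⟩, ?_⟩
        simp only
        obtain ⟨t, ht⟩ := ho
        omega
    have h1 : (unif w).map (fun z => z i) = (PMF.uniformOfFintype (Fin (w + 1))).toMeasure :=
      (measurePreserving_eval_infinitePi _ i).map_eq
    have h2 : (unif w) {z : ℕ → Fin (w + 1) | z i = j} =
        (PMF.uniformOfFintype (Fin (w + 1))).toMeasure {j} := by
      rw [← h1, Measure.map_apply (measurable_pi_apply i) MeasurableSet.of_discrete]
      rfl
    have h3 : (unif w).real {z : ℕ → Fin (w + 1) | z i = j} = 1 / (w + 1) := by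
      rw [Measure.real, h2, PMF.toMeasure_apply_singleton _ _ MeasurableSet.of_discrete,
        PMF.uniformOfFintype_apply, Fintype.card_fin, ENNReal.toReal_inv]
      push_cast
      rw [one_div]
      congr 1
    rw [← h3]
    refine measureReal_mono fun z hz => ?_
    have hz' : z i = j := hz
    show 2 ∣ a i + (z i : ℕ)
    rw [hz']
    exact hj

end Pool.Agent.Results.MP_d5a1e1_nt.BoundedPerturbations
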