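import Pool.Agent.Helper520_dp.Full

/-!
# MP_d5a1e1_nt: dense sets of `h`-th powers, and bases with many elements near `h`-full numbers

Let `h ≥ 3` and let `r_{A,h}(n)` be the number of multisets of `h` elements of `A` with sum `n`.

1. (A density version of the theorem of Erdős (1936) that the number of representations as a sum of `h`
   `h`-th powers is unbounded.) For `δ > 0` and `R` let `X` be large. If `S` contains at least `δ X` of the integers
   `1, ..., X`, then some `n` has more than `R` representations as a sum of `h` `h`-th powers of elements of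
   `S ∩ [1, X]`. So the subsets of `{1 ^ h, ..., X ^ h}` with `r_{A,h} ≤ R` have `o(X)` elements.
2. Let `(α_j)` be any family of positive real numbers with `∑ α_j ^ (-1/h) < ∞`, and `W` and `g` constants. Uniformly
   in the sets `A` with `r_{A,h} ≤ g`, at most `o(N ^ (1/h))` of the elements `a ≤ N` of `A` are within `W` of a number
   `α_j x ^ h`.
3. In particular, uniformly in the sets `A` with `r_{A,h} ≤ g`, at most `o(N ^ (1/h))` of the elements
   `a ≤ N` of `A` are within `W` of an `h`-full number (`m` is `h`-full if `p ^ h ∣ m` for all primes `p ∣ m`).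
4. The Erdős–Turán conjecture of order `h` holds for the asymptotic bases of order `h` which consist of
   such numbers, or just for infinitely many `N` have at least a fixed proportion of such numbers among their elements
   up to `N`.

Proof of 1: along an ultrafilter the sets `S` have limit densities in all residue classes. The variances of these
densities (relative to the density of `S`) are superadditive on coprime moduli, so that they are small for all the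
moduli coprime to some `Q₀`. By an inequality of Turán–Kubilius type, `S` is then also nearly uniformly distributed among
the multiples of most of the primes (in the sense of `∑ 1 / p`). For a large set `T` of such primes, and `p ∈ T`, the
tuples of elements of `S`, all divisible by `p`, and not all divisible by `q` for the other `q ∈ T`, with
`∑ x_i ^ h ≡ 0` modulo the product `M` of all `q ^ h`, are `≫ δ ^ h X ^ h / M` in number (bounds for Gauss sums),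
for each `p ∈ T`. The sums are multiples of `M`, so that one of them is taken `≫ δ ^ h T.card` times.
-/

set_option autoImplicit false

open Filter Topology

namespace Pool.Agent.Results.MP_d5a1e1_nt.DensePowers

/-- the number `r_{A,h}(n)` of multisets of `h` elements of `A` with sum `n` -/
noncomputable def r (A : Set ℕ) (h n : ℕ) : ℕ :=
  Set.ncard {s : Multiset ℕ | Multiset.card s = h ∧ (∀ a ∈ s, a ∈ A) ∧ s.sum = n}

/-- `A` is an asymptotic basis of order `h` -/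
def IsBasis (A : Set ℕ) (h : ℕ) : Prop :=
  ∃ N : ℕ, ∀ n : ℕ, N ≤ n → ∃ s : Multiset ℕ, Multiset.card s = h ∧ (∀ a ∈ s, a ∈ A) ∧ s.sum = n

/-- the number of the elements `≤ N` of `B` -/
noncomputable def count (B : Set ℕ) (N : ℕ) : ℕ := Set.ncard {a | a ∈ B ∧ a ≤ N}

/-- the natural numbers within `W` of one of the numbers `α j * x ^ h` -/
def near {ι : Type} (α : ι → ℝ) (h W : ℕ) : Set ℕ := {a | ∃ j, ∃ x : ℕ, |(a : ℝ) - α j * (x : ℝ) ^ h| ≤ W}

/-- `m` is `h`-full -/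
def IsFull (h m : ℕ) : Prop := m ≠ 0 ∧ ∀ p : ℕ, p.Prime → p ∣ m → p ^ h ∣ m

/-- the natural numbers within `W` of an `h`-full number -/
def nearFull (h W : ℕ) : Set ℕ := {a | ∃ m : ℕ, IsFull h m ∧ |(a : ℝ) - m| ≤ W}

lemma dense (h : ℕ) (hh : 3 ≤ h) (δ : ℝ) (hδ : 0 < δ) (R : ℕ) :
    ∃ X₀ : ℕ, ∀ X, X₀ ≤ X → ∀ S : Set ℕ, δ * X ≤ Set.ncard {x | x ∈ S ∧ 1 ≤ x ∧ x ≤ X} →
      ∃ n, R < r {a | ∃ x ∈ S, 1 ≤ x ∧ x ≤ X ∧ a = x ^ h} h n := by
  obtain ⟨X₀, hX₀⟩ := Pool.Agent.Helper520_dp.finitary h hh δ hδ (h ^ h * R)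
  refine ⟨X₀, fun X hX S hS => ?_⟩
  rw [← Pool.Agent.Helper520_dp.cc_eq_ncard, ← Pool.Agent.Helper520_dp.cnt_eq_cc] at hS
  obtain ⟨n, hn⟩ := hX₀ X hX S hS
  refine ⟨n, ?_⟩
  have h1 := Pool.Agent.Helper520_dp.card_le_reps {a | ∃ x ∈ S, 1 ≤ x ∧ x ≤ X ∧ a = x ^ h} S (fun x => x ^ h)
    (fun x _ y _ hxy => Nat.pow_left_injective (by omega : h ≠ 0) hxy)
    (Pool.Agent.Helper520_dp.tupn S h X n) n (by
      intro x hx
      rw [Pool.Agent.Helper520_dp.mem_tupn] at hx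
      exact ⟨fun i => ⟨(hx.1 i).2, x i, (hx.1 i).2, (hx.1 i).1.1, (hx.1 i).1.2, rfl⟩, hx.2⟩)
  exact lt_of_mul_lt_mul_left (hn.trans_le h1) (Nat.zero_le _)

lemma basis_aux (h : ℕ) (hh : 3 ≤ h) (B : Set ℕ)
    (hB : ∀ g : ℕ, ∀ ε : ℝ, 0 < ε → ∃ N₀ : ℕ, ∀ N, N₀ ≤ N → ∀ A : Set ℕ, (∀ n, r A h n ≤ g) →
      (count (A ∩ B) N : ℝ) ≤ ε * (N : ℝ) ^ (1 / h : ℝ)) (A : Set ℕ) (hA : IsBasis A h) (c : ℝ) (hc : 0 < c)
    (hfreq : ∃ᶠ N in atTop, c * count A N ≤ count (A ∩ B) N) (M : ℕ) : ∃ n, M < r A h n := by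
  by_contra hcon
  push Not at hcon
  obtain ⟨N₀, hN₀⟩ := hB M (c / 4) (by positivity)
  obtain ⟨N₁, hN₁⟩ := Pool.Agent.Helper520_dp.basis_lower h (by omega) A hA
  obtain ⟨N, hN, hN'⟩ := (hfreq.and_eventually (eventually_ge_atTop (max (max N₀ N₁) 1))).exists
  have h1 := hN₀ N (((le_max_left _ _).trans (le_max_left _ _)).trans hN') A hcon
  have h2 : (N : ℝ) ^ (1 / h : ℝ) ≤ 2 * count A N :=
    hN₁ N (((le_max_right _ _).trans (le_max_left _ _)).trans hN')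
  have hNpos : (0 : ℝ) < N := by exact_mod_cast (le_max_right _ _).trans hN'
  have h3 : 0 < (N : ℝ) ^ (1 / h : ℝ) := Real.rpow_pos_of_pos hNpos _
  have h4 : c / 4 * (N : ℝ) ^ (1 / h : ℝ) ≤ c / 4 * (2 * count A N) := mul_le_mul_of_nonneg_left h2 (by positivity)
  have h5 : c * (N : ℝ) ^ (1 / h : ℝ) ≤ c * (2 * count A N) := mul_le_mul_of_nonneg_left h2 hc.le
  have h6 : 0 < c * (N : ℝ) ^ (1 / h : ℝ) := mul_pos hc h3
  linarith

theorem result (h : ℕ) (hh : 3 ≤ h) :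
    -- 1. dense sets of `h`-th powers
    (∀ δ : ℝ, 0 < δ → ∀ R : ℕ, ∃ X₀ : ℕ, ∀ X, X₀ ≤ X → ∀ S : Set ℕ,
      δ * X ≤ Set.ncard {x | x ∈ S ∧ 1 ≤ x ∧ x ≤ X} →
        ∃ n, R < r {a | ∃ x ∈ S, 1 ≤ x ∧ x ≤ X ∧ a = x ^ h} h n) ∧
    -- 2. elements near a summable family of dilates of the `h`-th powers
    (∀ (ι : Type) (α : ι → ℝ), (∀ j, 0 < α j) → Summable (fun j => (α j) ^ (-(1 / h : ℝ))) →
      ∀ W g : ℕ, ∀ ε : ℝ, 0 < ε → ∃ N₀ : ℕ, ∀ N, N₀ ≤ N → ∀ A : Set ℕ, (∀ n, r A h n ≤ g) →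
        (count (A ∩ near α h W) N : ℝ) ≤ ε * (N : ℝ) ^ (1 / h : ℝ)) ∧
    -- 3. elements near `h`-full numbers
    (∀ W g : ℕ, ∀ ε : ℝ, 0 < ε → ∃ N₀ : ℕ, ∀ N, N₀ ≤ N → ∀ A : Set ℕ, (∀ n, r A h n ≤ g) →
        (count (A ∩ nearFull h W) N : ℝ) ≤ ε * (N : ℝ) ^ (1 / h : ℝ)) ∧
    -- 4. bases with a positive proportion of such elements, for infinitely many `N`
    (∀ A : Set ℕ, IsBasis A h →
      ((∃ W : ℕ, ∃ c : ℝ, 0 < c ∧ ∃ᶠ N in atTop, c * count A N ≤ count (A ∩ nearFull h W) N) ∨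
        (∃ (ι : Type) (α : ι → ℝ), (∀ j, 0 < α j) ∧ Summable (fun j => (α j) ^ (-(1 / h : ℝ))) ∧
          ∃ W : ℕ, ∃ c : ℝ, 0 < c ∧ ∃ᶠ N in atTop, c * count A N ≤ count (A ∩ near α h W) N)) →
      ∀ M : ℕ, ∃ n : ℕ, M < r A h n) := by
  have h2 : ∀ (ι : Type) (α : ι → ℝ), (∀ j, 0 < α j) → Summable (fun j => (α j) ^ (-(1 / h : ℝ))) →
      ∀ W g : ℕ, ∀ ε : ℝ, 0 < ε → ∃ N₀ : ℕ, ∀ N, N₀ ≤ N → ∀ A : Set ℕ, (∀ n, r A h n ≤ g) →
        (count (A ∩ near α h W) N : ℝ) ≤ ε * (N : ℝ) ^ (1 / h : ℝ) :=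
    fun ι α hα hs W g ε hε => Pool.Agent.Helper520_dp.near_family h hh g α hα hs W ε hε
  have h3 : ∀ W g : ℕ, ∀ ε : ℝ, 0 < ε → ∃ N₀ : ℕ, ∀ N, N₀ ≤ N → ∀ A : Set ℕ, (∀ n, r A h n ≤ g) →
        (count (A ∩ nearFull h W) N : ℝ) ≤ ε * (N : ℝ) ^ (1 / h : ℝ) := by
    intro W g ε hε
    obtain ⟨N₀, hN₀⟩ := h2 _ (Pool.Agent.Helper520_dp.fullDil h) (Pool.Agent.Helper520_dp.fullDil_pos h)
      (Pool.Agent.Helper520_dp.fullDil_summable h (by omega)) W g ε hε
    refine ⟨N₀, fun N hN A hA => le_trans ?_ (hN₀ N hN A hA)⟩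
    have hsub : {a | a ∈ A ∩ nearFull h W ∧ a ≤ N} ⊆
        {a | a ∈ A ∩ near (Pool.Agent.Helper520_dp.fullDil h) h W ∧ a ≤ N} := by
      rintro a ⟨⟨ha1, ha2⟩, ha3⟩
      exact ⟨⟨ha1, Pool.Agent.Helper520_dp.nearFull_sub h (by omega) W ha2⟩, ha3⟩
    unfold count
    exact_mod_cast Set.ncard_le_ncard hsub ((Set.finite_Iic N).subset fun a ha => ha.2)
  refine ⟨dense h hh, h2, h3, ?_⟩
  rintro A hA (⟨W, c, hc, hfreq⟩ | ⟨ι, α, hα, hs, W, c, hc, hfreq⟩) M
  · exact basis_aux h hh (nearFull h W) (fun g ε hε => h3 W g ε hε) A hA c hc hfreq M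
  · exact basis_aux h hh (near α h W) (fun g ε hε => h2 ι α hα hs W g ε hε) A hA c hc hfreq M

end Pool.Agent.Results.MP_d5a1e1_nt.DensePowers
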