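import Pool.Agent.h232_gaps.Fin

/-!
# MP_d5a1e1_nt: bases of order `h` with few distinct gaps

`rep A h n` is the number `r_{A,h}(n)` of multisets of `h` elements of `A` with sum `n`, and `gaps B` is the set of the
gaps of `B`, that is of the differences of two consecutive elements of `B`.

1. Every finite set `B` of natural numbers with at most `g ≥ 1` DISTINCT gaps and at least `2 ^ (9 (6 g) ^ (k - 2))` elements,
   `k ≥ 3`, contains a nondegenerate cube of dimension `k`: numbers `x + ∑_{i ∈ I} e_i`, `I ⊆ {1, …, k}`, with `2 ^ k` different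
   sums.  There is no condition on the density of `B`.
2. Hence, if `B ⊆ A`, some number `n ≤ h * max B` has `h! r_{A,h}(n) ≥ C(h, ⌊h/2⌋) ^ k`, for every `h`.
3. Let `A` be an asymptotic basis of order `h ≥ 2` with `r_{A,h} ≤ K`, and let `h! K < C(h, ⌊h/2⌋) ^ k`, `k ≥ 3` (for `h = 2`:
   `K < 2 ^ (k - 1)`).  Then for all large `N` there are at least `c (log N) ^ (1 / (k - 2))` distinct gaps between the elements
   of `A` up to `N`.  For instance, a basis of order 2 with `r_{A,2} ≤ 7` has at least `c √(log N)` distinct gaps up to `N`.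
4. The conjecture holds, for every `h ≥ 2`, for all asymptotic bases `A` of order `h` which are finite unions of sets `B_j` with
   few distinct gaps: for every `ε > 0` there are arbitrarily large `N` such that every `B_j` has at most `(log N) ^ ε` distinct
   gaps up to `N`.
5. More generally `r_{A,h}` is unbounded, for every `h ≥ 2` and every set `A`, basis or not and however thin, which contains, for
   every `ε > 0`, arbitrarily large finite sets `B` with at most `(log |B|) ^ ε` distinct gaps.

Method.  Let `a_0 < … < a_M` be the elements of `B`.  The difference `a_j - a_i` is determined by the numbers of times each of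
the `g` gaps occurs between `i` and `j`; so the differences with `j - i ≤ L` take at most `C(g + L, g)` values only, whatever the
sizes of the gaps are.  Let `S` be a set of `δ M` indices `s` such that the same cube, placed at `a_s`, lies in `B` and ends before
`a_{s + Λ}`.  Among the indices of `S` there are `≫ δ M / L` disjoint pairs `s + Λ < s' ≤ s + L` with `L ≪ Λ / δ`, and for many of
them the difference `a_{s'} - a_s` is the same: these give the cubes of the next dimension, their new side being longer than the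
old cube.  `k - 1` steps give part 1, and a cube gives `C(h, ⌊h/2⌋) ^ k` ordered representations of one number
(`Pool.Agent.R447.Prod.reps_of_cube`, starting library).
-/

set_option autoImplicit false

open Finset Filter

namespace Pool.Agent.Results.MP_d5a1e1_nt.FewGaps

/-- `r_{A,h}(n)`: the number of multisets of `h` elements of `A` with sum `n` -/
noncomputable def rep (A : Set ℕ) (h n : ℕ) : ℕ :=
  Set.ncard {s : Multiset ℕ | Multiset.card s = h ∧ (∀ a ∈ s, a ∈ A) ∧ s.sum = n}

/-- `A` is an asymptotic basis of order `h` -/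
def IsBasis (A : Set ℕ) (h : ℕ) : Prop :=
  ∃ n₀ : ℕ, ∀ n : ℕ, n₀ ≤ n →
    ∃ s : Multiset ℕ, Multiset.card s = h ∧ (∀ a ∈ s, a ∈ A) ∧ s.sum = n

/-- the set of the gaps of `B`: the differences of two consecutive elements of `B` -/
def gaps (B : Set ℕ) : Set ℕ := {d | 0 < d ∧ ∃ a ∈ B, a + d ∈ B ∧ ∀ c ∈ B, ¬ (a < c ∧ c < a + d)}

theorem result :
    -- 1. cubes in finite sets with few distinct gaps
    (∀ (k g : ℕ) (B : Finset ℕ), 3 ≤ k → 1 ≤ g → (gaps (B : Set ℕ)).ncard ≤ g →
      2 ^ (9 * (6 * g) ^ (k - 2)) ≤ B.card →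
        ∃ (x : ℕ) (e : Fin k → ℕ), (∀ I J : Finset (Fin k), ∑ i ∈ I, e i = ∑ i ∈ J, e i → I = J) ∧
          ∀ I : Finset (Fin k), x + ∑ i ∈ I, e i ∈ B) ∧
    -- 2. sets which contain a finite set with few distinct gaps
    (∀ (A : Set ℕ) (h k g : ℕ) (B : Finset ℕ), (B : Set ℕ) ⊆ A → 3 ≤ k → 1 ≤ g →
      (gaps (B : Set ℕ)).ncard ≤ g → 2 ^ (9 * (6 * g) ^ (k - 2)) ≤ B.card →
        ∃ n : ℕ, n ≤ h * B.sup id ∧ (h.choose (h / 2)) ^ k ≤ h.factorial * rep A h n) ∧
    -- 3. the number of distinct gaps of a basis with bounded representation function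
    (∀ (A : Set ℕ) (h k K : ℕ), 2 ≤ h → 3 ≤ k → h.factorial * K < (h.choose (h / 2)) ^ k → IsBasis A h →
      (∀ n, rep A h n ≤ K) → ∃ c : ℝ, 0 < c ∧ ∀ᶠ N : ℕ in atTop,
        c * (Real.log N) ^ (1 / ((k : ℝ) - 2)) ≤ ((gaps (A ∩ Set.Iic N)).ncard : ℝ)) ∧
    -- 4. bases which are finite unions of sets with few distinct gaps
    (∀ (A : Set ℕ) (h J : ℕ) (B : Fin J → Set ℕ), 2 ≤ h → IsBasis A h → A = ⋃ j, B j →
      (∀ ε : ℝ, 0 < ε → ∃ᶠ N : ℕ in atTop,
        ∀ j, ((gaps (B j ∩ Set.Iic N)).ncard : ℝ) ≤ (Real.log N) ^ ε) →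
      ∀ K : ℕ, ∃ n : ℕ, K < rep A h n) ∧
    -- 5. sets which contain large finite sets with few distinct gaps
    (∀ (A : Set ℕ) (h : ℕ), 2 ≤ h →
      (∀ (ε : ℝ) (m : ℕ), 0 < ε → ∃ B : Finset ℕ, (B : Set ℕ) ⊆ A ∧ m ≤ B.card ∧
        ((gaps (B : Set ℕ)).ncard : ℝ) ≤ (Real.log B.card) ^ ε) →
      ∀ K : ℕ, ∃ n : ℕ, K < rep A h n) :=
  ⟨fun k g B hk hg hB hM => Pool.Agent.h232gaps.cubes k hk g B hg hB hM,
    fun A h k g B hBA hk hg hB hM => Pool.Agent.h232gaps.many_reps A h k g B hBA hk hg hB hM,
    fun A h k K hh hk hK hA hr => Pool.Agent.h232gaps.basis_gaps A h k K hh hk hK hA hr,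
    fun A h J B hh hA hAB hB K => Pool.Agent.h232gaps.unions A h J B hh hA hAB hB K,
    fun A h hh hB K => Pool.Agent.h232gaps.general A h hh hB K⟩

end Pool.Agent.Results.MP_d5a1e1_nt.FewGaps
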