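import Pool.Agent.Helper667_QS.Real2

/-!
# MP_d5a1e1_nt, Q1 (order 2): one basis whose representation function is small on almost all scales

`rep A n` is the number of ordered pairs `(a, b) ∈ A × A` with `a + b = n` (the unordered function
`r_{A,2}(n)` of the problem satisfies `r_{A,2}(n) ≤ rep A n ≤ 2 r_{A,2}(n)`). For `θ > 0` the scale
`k` is `θ`-*loud* if some `n` in the dyadic interval `[2 ^ k, 2 ^ (k + 1))` has more than `k ^ θ`
representations, and `loud A θ K` is the number of loud scales below `K`.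

**Theorem.** (1) There is an asymptotic basis `A` of order 2 such that
`r_A(n) = O(log n / √(log log n))` for all `n` and, for **all** `0 < θ ≤ 1` and `η > 0`,
`loud A θ K = O(K ^ (1 - θ + η))`.

(2) Let `0 < δ < 1` and `η > 0`. There is an asymptotic basis `A` of order 2 such that
`r_A(n) = O(log n / log log n)` for all `n`, and `loud A (δ + η) K ≤ C K ^ (1 - δ)` for all `K`.

So on almost all scales (all but `O(K ^ (1 - ε))` of the first `K`, for every exponent) **every** `n`
has at least one and at most `(log n) ^ o(1)` representations, and nowhere is the representation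
function larger than (essentially) in `SparseBasis` (starting files; the smallest known for a basis).
In `AlmostAllScales` (MP_12a1af_nt) the bound `(log n) ^ (δ + η)` holds for all `n`, but
`K ^ (1 - δ)` of the scales are not covered.

Construction, by induction.  Let `S` be one of the random blocks of the starting files
`Pool.Agent.H125R2.ET`, for a prime `p`, and `m = p ^ 8`; `S + S` contains `[11 m, 12 m)`.  For a
set `B` already constructed the *twisted wide block* consists of the numbers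

  `s + m (b + (s mod T_c))`,  `s ∈ S`, `b ∈ B`, `2 ^ (16 · 2 ^ c) ≤ b < 2 ^ (128 · 2 ^ c)`,

`T_c = 9 ^ (2 ^ c)`, `c = 0, 1, …`, and it is cut off where the next block begins; there are no gaps.
The twist `s mod T_c` has the effect that for a number `n` near `2 ^ l m` only `T_c ^ (-1/2)` of the
elements `s` of the block can be used in a representation with a smaller element of `A`, since
`⌊n / m⌋ - (s mod T_c)` has to be in the thin set `B`.  So the number of such representations has
exponential moments with a parameter of the size `2 ^ c ≍ l`, and there are only `O(log m / l)` of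
them for every `n`.  For a basis `B_d` of depth `d`, good for the exponents `a / d`, `2 ≤ a ≤ d`, the
blocks are placed at `log m ≈ 8 x ^ d`, `x = x_0, x_0 + 1, …`, their widths are `≍ x ^ (d - 1)`.
For (1) the blocks are placed at `log m ≈ 8 κ`, their widths are `κ / 2 ^ √(log κ)`, and the set `B`
of the block is `B_d` with `d` tending to infinity slowly with `κ`.
-/

set_option autoImplicit false

namespace Pool.Agent.Results.MP_d5a1e1_nt.QuietScales

/-- `rep A n`: the number of ordered pairs of elements of `A` with sum `n` -/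
noncomputable def rep (A : Set ℕ) (n : ℕ) : ℕ :=
  {x : ℕ × ℕ | x.1 ∈ A ∧ x.2 ∈ A ∧ x.1 + x.2 = n}.ncard

/-- `loud A θ K`: the number of the `k < K` such that some `n` with `2 ^ k ≤ n < 2 ^ (k + 1)` has
more than `k ^ θ` representations -/
noncomputable def loud (A : Set ℕ) (θ : ℝ) (K : ℕ) : ℕ :=
  {k : ℕ | k < K ∧ ∃ n : ℕ, 2 ^ k ≤ n ∧ n < 2 ^ (k + 1) ∧ (k : ℝ) ^ θ < (rep A n : ℝ)}.ncard

theorem loud_eq (A : Set ℕ) (θ : ℝ) (K : ℕ) : loud A θ K = Pool.Agent.Helper667_QS.loudR A θ K := by
  classical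
  unfold loud Pool.Agent.Helper667_QS.loudR
  rw [← Set.ncard_coe_finset]
  congr 1
  ext k
  rw [Finset.mem_coe, Finset.mem_filter, Finset.mem_range]
  rfl

theorem one_le_rep {A : Set ℕ} {n : ℕ} (h : ∃ a ∈ A, ∃ b ∈ A, a + b = n) : 1 ≤ rep A n := by
  obtain ⟨a, ha, b, hb, hab⟩ := h
  unfold rep
  exact (Set.ncard_pos (Pool.Agent.Helper667_AS.repset_finite A n)).2 ⟨(a, b), ha, hb, hab⟩

theorem result :
    (∃ A : Set ℕ, (∃ n₀, ∀ n ≥ n₀, 1 ≤ rep A n) ∧
      (∃ C : ℝ, ∀ n : ℕ, 3 ≤ n →
        (rep A n : ℝ) ≤ C * (Real.log n / Real.sqrt (Real.log (Real.log n)))) ∧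
      (∀ θ η : ℝ, 0 < θ → θ ≤ 1 → 0 < η → ∃ C : ℝ, ∀ K : ℕ,
        (loud A θ K : ℝ) ≤ C * (K : ℝ) ^ (1 - θ + η))) ∧
    (∀ δ η : ℝ, 0 < δ → δ < 1 → 0 < η → ∃ (A : Set ℕ) (C : ℝ),
      (∃ n₀, ∀ n ≥ n₀, 1 ≤ rep A n) ∧
      (∀ n : ℕ, 3 ≤ n → (rep A n : ℝ) ≤ C * (Real.log n / Real.log (Real.log n))) ∧
      (∀ K : ℕ, (loud A (δ + η) K : ℝ) ≤ C * (K : ℝ) ^ (1 - δ))) := by
  constructor
  · obtain ⟨A, ⟨n₀, h1⟩, h2, h3⟩ := Pool.Agent.Helper667_QS.quiet_all
    refine ⟨A, ⟨n₀, fun n hn => one_le_rep (h1 n hn)⟩, h2, ?_⟩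
    intro θ η hθ hθ1 hη
    obtain ⟨C, hC⟩ := h3 θ η hθ hθ1 hη
    refine ⟨C, fun K => ?_⟩
    rw [loud_eq]
    exact hC K
  · intro δ η hδ hδ1 hη
    obtain ⟨A, C, ⟨n₀, h1⟩, h2, h3⟩ := Pool.Agent.Helper667_QS.quiet δ η hδ hδ1 hη
    refine ⟨A, C, ⟨n₀, fun n hn => one_le_rep (h1 n hn)⟩, h2, ?_⟩
    intro K
    rw [loud_eq]
    exact h3 K

end Pool.Agent.Results.MP_d5a1e1_nt.QuietScales
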